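import Pool.Agent.Y104.WL.Stm

/-!
# Contractions of the tensor given by a linear form which vanishes on the algebraic classes
-/

open CategoryTheory AlgebraicGeometry
open scoped Matrix

set_option linter.unusedSectionVars false

universe u v w

namespace Pool.Agent.Y907.WL

open Pool.Agent.H914 Pool.Agent.H914.VarClass Pool.Agent.H914.VarClass.Obj
  Pool.Agent.H914.WeilCohomology Pool.Agent.H281R3.HT Pool.Agent.TH125.Gal
  Pool.Agent.Y104.Kempf Pool.Agent.Y104.Geo

section Lists

variable {S : Type} [Fintype S] [DecidableEq S]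

/-- The slots in pairs. -/
def lp (r : ℕ) (e : Fin r × Fin 2 ≃ S) : List S :=
  (List.finRange r).flatMap fun l => [e (l, 0), e (l, 1)]

theorem nodup_lp (r : ℕ) (e : Fin r × Fin 2 ≃ S) : (lp r e).Nodup := by
  rw [lp, List.nodup_flatMap]
  refine ⟨fun l _ => ?_, ?_⟩
  · simp [e.injective.eq_iff]
  · refine (List.nodup_finRange r).pairwise_of_forall_ne fun i _ j _ hij => ?_
    rw [Function.onFun, List.disjoint_left]
    intro x hx hx'
    simp only [List.mem_cons, List.not_mem_nil, or_false] at hx hx'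
    rcases hx with rfl | rfl <;> simp [e.injective.eq_iff, hij] at hx'

theorem mem_lp (r : ℕ) (e : Fin r × Fin 2 ≃ S) (x : S) : x ∈ lp r e := by
  rw [lp]
  obtain ⟨⟨l, t⟩, rfl⟩ := e.surjective x
  simp only [List.mem_flatMap, List.mem_cons, List.not_mem_nil, or_false, List.mem_finRange,
    true_and]
  refine ⟨l, ?_⟩
  fin_cases t
  · left; rfl
  · right; rfl

theorem lp_perm (r : ℕ) (e : Fin r × Fin 2 ≃ S) {l : List S} (hl : l.Nodup) (hm : ∀ s, s ∈ l) :
    l.Perm (lp r e) := by
  rw [List.perm_ext_iff_of_nodup hl (nodup_lp r e)]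
  exact fun x => ⟨fun _ => mem_lp r e x, fun _ => hm x⟩

theorem prod_lp {H : Type*} [Ring H] (r : ℕ) (e : Fin r × Fin 2 ≃ S) (f : S → H) :
    ((lp r e).map f).prod = (List.ofFn fun l => f (e (l, 0)) * f (e (l, 1))).prod := by
  rw [lp, map_flatMap_prod, List.ofFn_eq_map]
  congr 1
  rw [List.map_congr_left]
  intro l _
  simp

end Lists

/-- **Contractions of the tensor given by a linear form which vanishes on the algebraic
classes.** -/
theorem null_lin : Pool.Agent.Y104.WL.S_NULL.{u, v} := by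
  intro k _ 𝒱 ops W ι _ _ X P S _ _ c Y p τ hτ l hl hm
  classical
  intro r E
  let f : (S → Tc P) → S → W.H Y := fun I s => W.map (p s) (xc P (c s) (I s))
  let d : S → ℕ := fun s => (P (c s)).e
  have hf : ∀ I x, f I x ∈ hpar W Y (d x) := fun I s => hpar_map _ (xc_mem P (c s) _)
  obtain ⟨ε, -, hε⟩ := perm_sign (hpar W Y) (hpar_comm (W := W) (X := Y)) d (lp_perm r E hl hm)
  have h2 : ∀ I : S → Tc P,
      τ (l.map fun s => W.map (p s) (xc P (c s) (I s))).prod *
        ∏ l, Matrix.blockDiagonal' (fun j => ((P j).Q)⁻¹) (I (E (l, 0))) (I (E (l, 1))) =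
      ε * τ ((∏ l, Matrix.blockDiagonal' (fun j => ((P j).Q)⁻¹) (I (E (l, 0)))
        (I (E (l, 1)))) • (List.ofFn fun l => W.map (p (E (l, 0))) (xc P (c (E (l, 0)))
          (I (E (l, 0)))) * W.map (p (E (l, 1))) (xc P (c (E (l, 1))) (I (E (l, 1))))).prod) := by
    intro I
    have h3 := hε (f I) (hf I)
    rw [prod_lp] at h3
    change (l.map fun s => W.map (p s) (xc P (c s) (I s))).prod = _ at h3
    rw [h3, map_smul, map_smul, smul_eq_mul, smul_eq_mul, mul_assoc, mul_comm (τ _)]
  rw [Finset.sum_congr rfl fun I _ => h2 I, ← Finset.mul_sum, ← map_sum,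
    sum_pairs r E (fun t t' => Matrix.blockDiagonal' (fun j => ((P j).Q)⁻¹) t t')
      (fun x t => W.map (p x) (xc P (c x) t))]
  have h3 := ofFn_algSpan (W := W) (Y := Y) (fun l : Fin r => ∑ t : Tc P × Tc P,
    Matrix.blockDiagonal' (fun j => ((P j).Q)⁻¹) t.1 t.2 •
      (W.map (p (E (l, 0))) (xc P (c (E (l, 0))) t.1) *
        W.map (p (E (l, 1))) (xc P (c (E (l, 1))) t.2)))
    (fun l => betac_mem P _ _ _ _)
  rw [hτ _ h3, mul_zero]

end Pool.Agent.Y907.WL
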